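import Pool.Agent.H71.CNS.PZ6
import Pool.Agent.H26.CNZ.CJC
import Pool.Agent.H37.CNQ.Stmts

/-!
# Row PZ7 of the board `cns`
-/

set_option autoImplicit false

namespace Pool.CND
namespace PZ7

/-- the conductor is an integer if the last group is not contained in the commutator subgroup -/
theorem int_of_not_mem (hPTR : S_PTR) (hCON : S_CON) (hHAC : S_HAC) (hRAM : S_RAM)
    {p : ℕ} {k L G : Type} [Field k] [IsAlgClosed k] [CharP k p] [Field L] [Algebra k L] [Group G]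
    [Finite G] (ρ : G →* (L ≃ₐ[k] L)) (t : L) (P : Place k L) (c : ℚ) (l : ℕ) (z : G)
    (hp : p.Prime) (hG : ∃ n : ℕ, Nat.card G = p ^ n) (hcov : IsCover ρ t) (hP : P.ord t < 0)
    (hc : IsConductor P ρ c) (hl1 : ram P ρ (l + 1) = {1}) (hz : z ∈ ram P ρ l)
    (hz' : z ∉ ⁅(⊤ : Subgroup G), (⊤ : Subgroup G)⁆) : ∃ n : ℤ, c = n := by
  classical
  have := Fintype.ofFinite G
  have hch : CharP k p := inferInstance
  have h1 : ram P ρ 1 = Set.univ := hPTR p k L G ρ t P hp hch hG hcov hP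
  have hfix : ∀ g : G, Fixes P (ρ g) := by
    intro g
    have : g ∈ ram P ρ 1 := by rw [h1]; exact Set.mem_univ g
    exact this.1
  have h0 : ram P ρ 0 = Set.univ :=
    Set.eq_univ_of_forall fun g => TWI.mem_ram_zero P ρ g (hfix g)
  have hW : ((⊤ : Subgroup G) : Set G) = ram P ρ 1 := by rw [h1]; rfl
  have hI : ((⊤ : Subgroup G) : Set G) = ram P ρ 0 := by rw [h0]; rfl
  have hz1 : z ≠ 1 := by
    rintro rfl
    exact hz' (Subgroup.one_mem _)
  rcases hCON k L G P ρ ⊤ ⊤ c hcov.inj hW hI hc with hc0 | ⟨l', hl', hcl⟩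
  · exact ⟨0, by rw [hc0]; simp⟩
  have hl0 : 1 ≤ l := by
    rcases Nat.eq_zero_or_pos l with rfl | h
    · exfalso
      rw [zero_add] at hl1
      rw [hl1] at h1
      have : z ∈ ({1} : Set G) := by rw [h1]; exact Set.mem_univ z
      exact hz1 this
    · exact h
  have hρ : ∀ g : G, g ≠ 1 → ρ g ≠ 1 := by
    intro g hg h
    exact hg (hcov.inj (by rw [h, map_one]))
  have hbz : (l : ℤ) ≤ P.b (ρ z) := by
    rcases ((hRAM k L G P ρ z l hl0).1 hz).2 with h | h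
    · exact absurd h (hρ z hz1)
    · exact h
  have hlb : l' ≤ (l : ℤ) := by
    obtain ⟨w, _, hw1, hwl⟩ := hl'.mem
    by_contra hlt
    push Not at hlt
    have h2 : w ∈ ram P ρ (l + 1) := by
      rw [hRAM k L G P ρ w (l + 1) (by omega)]
      refine ⟨hfix w, Or.inr ?_⟩
      rw [hwl]
      push_cast
      omega
    rw [hl1] at h2
    exact hw1 h2
  have hb : P.b (ρ z) = l' :=
    le_antisymm (hl'.le z (Subgroup.mem_top z) hz1) (le_trans hlb hbz)
  obtain ⟨y, hy⟩ := hHAC p k L G P ρ ⊤ ⊤ l' z hp hch hcov.inj hW le_rfl (Subgroup.mem_top z) hz'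
    hb hl'
  refine ⟨y, ?_⟩
  have hne : ((Nat.card (⊤ : Subgroup G) : ℕ) : ℚ) ≠ 0 := by
    rw [Nat.cast_ne_zero]
    exact Nat.card_pos.ne'
  rw [← hy]
  exact mul_left_cancel₀ hne hcl

end PZ7

open PZ7 in
theorem pz7_thm (hPZ6 : S_PZ6) (hHAC : S_HAC) (hALT : S_ALT) (hTWG : S_TWG) (hASG : S_ASG)
    (hTWC : S_TWC) (hTWB : S_TWB) (hVLF : S_VLF) (hQCC : S_QCC) (hCJC : S_CJC) (hCUQ : S_CUQ)
    (hCON : S_CON) (hPTR : S_PTR) (hCNV : S_CNV) (hEXI : S_EXI) (hWLD : S_WLD) (hRAM : S_RAM)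
    (hTRV : S_TRV) : S_PZ7 := by
  classical
  intro p k L G _ _ _ _ _ _ _ ρ t P c hp hp2 hPC hcov hP hc
  have := Fact.mk hp
  have : NeZero p := ⟨hp.ne_zero⟩
  have hch : CharP k p := inferInstance
  obtain ⟨l, hl, hl1, hlc⟩ := id hc
  obtain ⟨v, hv, hv1⟩ := TWI.exists_of_ram_ne P ρ l hl
  by_cases hvc : v ∉ ⁅(⊤ : Subgroup G), (⊤ : Subgroup G)⁆
  · exact int_of_not_mem hPTR hCON hHAC hRAM ρ t P c l v hp hPC.card hcov hP hc hl1 hv hvc
  push Not at hvc
  obtain ⟨C, hCdef⟩ : ∃ C : Subgroup G, C = ⁅(⊤ : Subgroup G), (⊤ : Subgroup G)⁆ := ⟨_, rfl⟩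
  rw [← hCdef] at hvc
  have hcm : ∀ g h : G, g * h * g⁻¹ * h⁻¹ ∈ C := by
    intro g h
    rw [hCdef]
    exact Subgroup.commutator_mem_commutator (Subgroup.mem_top g) (Subgroup.mem_top h)
  have hCc : C ≤ Subgroup.center G := by
    rw [hCdef, Subgroup.commutator_le]
    intro g _ h _
    exact hPC.comm g h
  have hcen : ∀ a ∈ C, ∀ b : G, b * a = a * b := fun a ha b =>
    Subgroup.mem_center_iff.1 (hCc ha) b
  have hCp : ∀ a ∈ C, a ^ p = 1 := by
    let K : Subgroup G :=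
      { carrier := {a | a ∈ Subgroup.center G ∧ a ^ p = 1}
        one_mem' := ⟨Subgroup.one_mem _, one_pow p⟩
        mul_mem' := by
          rintro a b ⟨ha, ha'⟩ ⟨hb, hb'⟩
          refine ⟨Subgroup.mul_mem _ ha hb, ?_⟩
          have : Commute a b := (Subgroup.mem_center_iff.1 ha b).symm
          rw [this.mul_pow, ha', hb', one_mul]
        inv_mem' := by
          rintro a ⟨ha, ha'⟩
          exact ⟨Subgroup.inv_mem _ ha, by rw [inv_pow, ha', inv_one]⟩ }
    have hK : C ≤ K := by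
      rw [hCdef, Subgroup.commutator_le]
      intro g _ h _
      refine ⟨hPC.comm g h, ?_⟩
      have h1 : Commute (g * h * g⁻¹ * h⁻¹) h :=
        (Subgroup.mem_center_iff.1 (hPC.comm g h) h).symm
      have h2 : (g * h * g⁻¹ * h⁻¹) ^ p * h ^ p = h ^ p := by
        rw [← h1.mul_pow, inv_mul_cancel_right, conj_pow]
        have h3 := Subgroup.mem_center_iff.1 (hPC.pow h) g
        rw [h3, mul_inv_cancel_right]
      have h3 : (g * h * g⁻¹ * h⁻¹) ^ p = 1 := mul_eq_right.1 h2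
      exact h3
    intro a ha
    exact (hK ha).2
  -- a character of the commutator subgroup
  let _ : CommGroup C :=
    { (inferInstance : Group C) with
      mul_comm := fun a b => Subtype.ext (hcen b.1 b.2 a.1) }
  obtain ⟨φ, hφ⟩ := PZ6.sep C p (fun a => Subtype.ext (hCp a.1 a.2)) ⟨v, hvc⟩
    (fun h => hv1 (congrArg Subtype.val h))
  let χ : G → ZMod p := fun g => if h : g ∈ C then Multiplicative.toAdd (φ ⟨g, h⟩) else 0
  have hχd : ∀ (g : G) (h : g ∈ C), χ g = Multiplicative.toAdd (φ ⟨g, h⟩) := by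
    intro g h
    simp only [χ, h, dif_pos]
  have hχ : ∀ a ∈ C, ∀ b ∈ C, χ (a * b) = χ a + χ b := by
    intro a ha b hb
    rw [hχd a ha, hχd b hb, hχd (a * b) (C.mul_mem ha hb), ← toAdd_mul, ← map_mul]
    rfl
  have hχv : χ v ≠ 0 := by
    rw [hχd v hvc]
    intro h
    exact hφ (Multiplicative.toAdd.injective h)
  have hχ1 : χ 1 = 0 := by
    have := hχ 1 C.one_mem 1 C.one_mem
    rw [mul_one] at this
    simpa using this
  have hω₁ : ∀ a b c : G, χ (a * b * c * (a * b)⁻¹ * c⁻¹) =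
      χ (a * c * a⁻¹ * c⁻¹) + χ (b * c * b⁻¹ * c⁻¹) := by
    intro a b c
    rw [← hχ _ (hcm a c) _ (hcm b c)]
    have h1 := hcen _ (hcm b c) a
    have e : a * b * c * (a * b)⁻¹ * c⁻¹ = a * (b * c * b⁻¹ * c⁻¹) * c * a⁻¹ * c⁻¹ := by group
    rw [e, h1]
    have h2 := hcen _ (hcm b c) (a * c * a⁻¹ * c⁻¹)
    rw [h2]
    congr 1
    group
  have hω₂ : ∀ a b c : G, χ (a * (b * c) * a⁻¹ * (b * c)⁻¹) =
      χ (a * b * a⁻¹ * b⁻¹) + χ (a * c * a⁻¹ * c⁻¹) := by
    intro a b c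
    rw [← hχ _ (hcm a b) _ (hcm a c)]
    have h1 := hcen _ (hcm a c) b
    have e : a * (b * c) * a⁻¹ * (b * c)⁻¹ =
        a * b * a⁻¹ * (a * c * a⁻¹ * c⁻¹) * b⁻¹ := by group
    have h2 := hcen _ (hcm a c) b⁻¹
    rw [e, mul_assoc (a * b * a⁻¹), ← h2, ← mul_assoc]
  have hω₃ : ∀ a : G, χ (a * a * a⁻¹ * a⁻¹) = 0 := by
    intro a
    have e : a * a * a⁻¹ * a⁻¹ = 1 := by group
    rw [e, hχ1]
  have hω₄ : ∀ a ∈ Subgroup.center G, ∀ b : G, χ (a * b * a⁻¹ * b⁻¹) = 0 := by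
    intro a ha b
    rw [← Subgroup.mem_center_iff.1 ha b]
    have e : b * a * a⁻¹ * b⁻¹ = 1 := by group
    rw [e, hχ1]
  -- a nonzero homomorphism which vanishes on the centre
  obtain ⟨g₀, hg₀⟩ : ∃ g : G, g ∉ Subgroup.center G := by
    by_contra hcon
    push Not at hcon
    apply hv1
    have h1 : C ≤ ⊥ := by
      rw [hCdef, Subgroup.commutator_le]
      intro g _ h _
      rw [Subgroup.mem_bot, commutatorElement_def]
      have h2 := Subgroup.mem_center_iff.1 (hcon h) g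
      rw [h2]
      group
    exact Subgroup.mem_bot.1 (h1 hvc)
  obtain ⟨y₀, hy₀, hy₀0, hy₀g⟩ : ∃ y : G → ZMod p, (∀ g h : G, y (g * h) = y g + y h) ∧
      (∀ g ∈ Subgroup.center G, y g = 0) ∧ y g₀ ≠ 0 := by
    let _ : CommGroup (G ⧸ Subgroup.center G) :=
      { (inferInstance : Group (G ⧸ Subgroup.center G)) with
        mul_comm := by
          intro a b
          obtain ⟨a, rfl⟩ := QuotientGroup.mk_surjective a
          obtain ⟨b, rfl⟩ := QuotientGroup.mk_surjective b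
          rw [← QuotientGroup.mk_mul, ← QuotientGroup.mk_mul, QuotientGroup.eq]
          have e : (a * b)⁻¹ * (b * a) = b⁻¹ * a⁻¹ * b⁻¹⁻¹ * a⁻¹⁻¹ := by group
          rw [e]
          exact hPC.comm _ _ }
    obtain ⟨ψ, hψ⟩ := PZ6.sep (G ⧸ Subgroup.center G) p (by
      intro a
      obtain ⟨a, rfl⟩ := QuotientGroup.mk_surjective a
      rw [← QuotientGroup.mk_pow, QuotientGroup.eq_one_iff]
      exact hPC.pow a) (g₀ : G ⧸ Subgroup.center G) (by
      intro h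
      exact hg₀ ((QuotientGroup.eq_one_iff g₀).1 h))
    refine ⟨fun g => Multiplicative.toAdd (ψ (g : G ⧸ Subgroup.center G)), ?_, ?_, ?_⟩
    · intro g h
      change Multiplicative.toAdd (ψ ((g * h : G) : G ⧸ Subgroup.center G)) = _
      rw [QuotientGroup.mk_mul, map_mul, toAdd_mul]
    · intro g hg
      change Multiplicative.toAdd (ψ (g : G ⧸ Subgroup.center G)) = _
      rw [(QuotientGroup.eq_one_iff g).2 hg, map_one, toAdd_one]
    · intro h
      exact hψ (Multiplicative.toAdd.injective h)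
  -- the largest degree
  let S : Set ℕ := {D | ∃ (y : G → ZMod p) (Y : L) (f : Polynomial k),
    (∀ g h : G, y (g * h) = y g + y h) ∧ (∀ g ∈ Subgroup.center G, y g = 0) ∧
    (∃ g : G, y g ≠ 0) ∧ Y ^ p - Y = Polynomial.aeval t f ∧
    (∀ g : G, ρ g Y = Y + algebraMap k L (fp k (y g))) ∧ 1 ≤ f.natDegree ∧ ¬ p ∣ f.natDegree ∧
    f.natDegree = D}
  have hSp : ∀ D ∈ S, (p : ℚ) * D ≤ c := by
    rintro D ⟨y, Y, f, h1, h2, h3, h4, h5, h6, h7, rfl⟩
    exact hPZ6 p k L G ρ t P c y Y f hp hp2 hPC hcov hP hc h1 h2 h3 h4 h5 h6 h7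
  have hSb : ∀ D ∈ S, (D : ℚ) ≤ c := by
    intro D hD
    refine le_trans ?_ (hSp D hD)
    have h1 : (1 : ℚ) ≤ p := by exact_mod_cast hp.one_le
    exact le_mul_of_one_le_left (Nat.cast_nonneg D) h1
  have hSn : S.Nonempty := by
    obtain ⟨Y, f, h1, h2, h3⟩ := hASG p k L G ρ t y₀ hp hcov hy₀
    rcases h3 with ⟨h4, _, _⟩ | ⟨h4, h5, h6⟩
    · exact absurd (h4 g₀) hy₀g
    · exact ⟨f.natDegree, y₀, Y, f, hy₀, hy₀0, h4, h1, h2, h5, h6, rfl⟩
  have hSba : BddAbove S := ⟨⌊c⌋₊, fun D hD => Nat.le_floor (hSb D hD)⟩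
  have hAm : sSup S ∈ S := Nat.sSup_mem hSn hSba
  have hAle : ∀ D ∈ S, D ≤ sSup S := fun D hD => le_csSup hSba hD
  have hAc := hSp _ hAm
  have hA1 : 1 ≤ sSup S := by
    obtain ⟨y, Y, f, h1, h2, h3, h4, h5, h6, h7, h8⟩ := hAm
    rw [← h8]
    exact h6
  generalize sSup S = A at hAle hAc hA1
  obtain ⟨G', _, _, L', _, _, ρ', π, z, γ, j, P', c', l', hT⟩ :=
    exists_twOut hALT hTWG hASG hTWC hTWB hEXI hPTR hWLD hCNV hQCC hCJC hCUQ p A k L G ρ t P c
      (fun a b => χ (a * b * a⁻¹ * b⁻¹)) hp hPC.card hcov hP hc hω₁ hω₂ hω₃ hω₄ hA1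
      (fun y Y f h1 h2 h3 h4 h5 h6 h7 => hAle _ ⟨y, Y, f, h1, h2, h3, h4, h5, h6, h7, rfl⟩)
  rcases hT.alt with h | ⟨hcc, hγ0⟩
  · exfalso
    have hp3 : 3 ≤ p := by
      have h2 := hp.two_le
      omega
    have h1 : (p : ℚ) * (p * A) ≤ (2 * p + 1) * A :=
      le_trans (mul_le_mul_of_nonneg_left (le_trans hAc hT.le) (Nat.cast_nonneg p)) h
    have h2 : p * (p * A) ≤ (2 * p + 1) * A := by exact_mod_cast h1
    have h3 : p * p ≤ 2 * p + 1 := by
      rw [← mul_assoc] at h2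
      exact Nat.le_of_mul_le_mul_right h2 hA1
    nlinarith
  · rw [hcc]
    -- the place below `P'`
    obtain ⟨P₁, e, he1, hP₁, hle, hlast⟩ :=
      hQCC p k L' L G' G ρ' ρ π j t P' c' hp hch hT.card hT.cov hcov hT.quo hT.con
    have hP₁neg : P₁.ord t < 0 := TwOut.neg_of j t P' P₁ e hP₁ hcov.trans hT.neg
    have ht0 : t ≠ 0 := by
      rintro rfl
      exact hcov.trans isAlgebraic_zero
    obtain ⟨a, -, ha⟩ := hTRV k L G ρ ⊤ P P₁ (by
      intro z hz hfix h0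
      exact cjc_ord P P₁ hP hP₁neg ht0
        ((hcov.fixed z).1 fun g => hfix g (Subgroup.mem_top g)) hz h0)
    have ha' : ∀ z : L, z ≠ 0 → P.ord z = P₁.ord (ρ a⁻¹ z) := by
      intro z hz
      have h0 : ρ a⁻¹ z ≠ 0 := fun h0 => hz ((ρ a⁻¹).injective (by rw [h0, map_zero]))
      rw [ha _ h0, ← AlgEquiv.mul_apply, ← map_mul, mul_inv_cancel, map_one, AlgEquiv.one_apply]
    have hv₁ : v ∈ ram P₁ ρ l := by
      have h1 := cjc_ram ρ P₁ P a⁻¹ ha' l v hv
      have h2 : a⁻¹ * v * a⁻¹⁻¹ = v := by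
        rw [hcen v hvc a⁻¹, mul_inv_cancel_right]
      rwa [h2] at h1
    have hl₁ : ram P₁ ρ (l + 1) = {1} := by
      ext g
      rw [Set.mem_singleton_iff]
      constructor
      · intro hg
        have h1 := cjc_ram ρ P P₁ a ha (l + 1) g hg
        rw [hl1, Set.mem_singleton_iff] at h1
        have h2 : a * g = a := mul_inv_eq_one.1 h1
        exact mul_eq_left.1 h2
      · rintro rfl
        exact TWI.one_mem_ram P₁ ρ (l + 1)
    have hl₁' : ram P₁ ρ l ≠ {1} := by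
      intro h
      rw [h] at hv₁
      exact hv1 hv₁
    obtain ⟨b, hb, hb1⟩ := TWI.exists_of_ram_ne P' ρ' l' hT.l_ne
    have hπb : π b ≠ 1 := fun h1 => hb1 (hT.ker b h1 (hγ0 b hb))
    obtain ⟨v', hv', hv'π⟩ := hVLF p k L' L G' G ρ' ρ π j t P' P₁ e l' l hp hch hT.card hT.cov
      hcov hT.quo he1 hP₁ hT.l_eq ⟨b, hb, hπb⟩ hl₁ hl₁' v hv₁
    refine int_of_not_mem hPTR hCON hHAC hRAM ρ' (j t) P' c' l' v' hp hT.card hT.cov hT.neg hT.con
      hT.l_eq hv' ?_
    have hγ1 : γ 1 = 0 := by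
      have := hT.mul_left 1 1 (by rw [map_one]; exact Subgroup.one_mem _)
      rw [mul_one] at this
      simpa using this
    let K : Subgroup G' :=
      { carrier := {x | π x ∈ C ∧ χ (π x) + γ x = 0}
        one_mem' := by
          refine ⟨by rw [map_one]; exact C.one_mem, ?_⟩
          rw [map_one, hχ1, hγ1, add_zero]
        mul_mem' := by
          rintro x y ⟨hx, hx'⟩ ⟨hy, hy'⟩
          refine ⟨by rw [map_mul]; exact C.mul_mem hx hy, ?_⟩
          rw [map_mul, hχ _ hx _ hy, hT.mul_left x y (hCc hx)]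
          linear_combination hx' + hy'
        inv_mem' := by
          rintro x ⟨hx, hx'⟩
          refine ⟨by rw [map_inv]; exact C.inv_mem hx, ?_⟩
          have h1 := hT.mul_left x x⁻¹ (hCc hx)
          rw [mul_inv_cancel, hγ1] at h1
          have h2 := hχ _ hx _ (C.inv_mem hx)
          rw [mul_inv_cancel, hχ1] at h2
          rw [map_inv]
          linear_combination -h1 - h2 - hx' }
    have hK : ⁅(⊤ : Subgroup G'), (⊤ : Subgroup G')⁆ ≤ K := by
      rw [Subgroup.commutator_le]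
      intro x _ y _
      rw [commutatorElement_def]
      refine ⟨?_, ?_⟩
      · rw [map_mul, map_mul, map_mul, map_inv, map_inv]
        exact hcm _ _
      · rw [hT.comm, map_mul, map_mul, map_mul, map_inv, map_inv]
        exact add_neg_cancel _
    intro hmem
    have h1 := (hK hmem).2
    rw [hv'π, hγ0 v' hv', add_zero] at h1
    exact hχv h1

end Pool.CND
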